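import Pool.Agent.W172.MK.Stm

/-!
# MK-ORTH: orthogonality of the truncated kernels
-/

set_option autoImplicit false

open MeasureTheory ProbabilityTheory Filter Topology

namespace Pool.Agent.W494.MK

open Pool.Agent.W172.MK

section

variable {n M : ℕ} {eps : Fin (M + 1) → V n → ℝ}

lemma int_bdd {S : Type} [MeasurableSpace S] (μ : Measure S) [IsProbabilityMeasure μ] {f : S → ℝ}
    (hf : Measurable f) (hb : ∃ C : ℝ, ∀ x, |f x| ≤ C) : Integrable f μ := by
  obtain ⟨C, hC⟩ := hb
  exact Integrable.of_bound hf.aestronglyMeasurable C (Eventually.of_forall fun x => hC x)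

lemma mul_bdd {S : Type} {f g : S → ℝ} (hf : ∃ C : ℝ, ∀ x, |f x| ≤ C)
    (hg : ∃ C : ℝ, ∀ x, |g x| ≤ C) : ∃ C : ℝ, ∀ x, |f x * g x| ≤ C := by
  obtain ⟨C, hC⟩ := hf
  obtain ⟨D, hD⟩ := hg
  refine ⟨C * D, fun x => ?_⟩
  rw [abs_mul]
  exact mul_le_mul (hC x) (hD x) (abs_nonneg _) ((abs_nonneg _).trans (hC x))

lemma abs_sg (x : ZMod 2) : |sg x| = 1 := by
  unfold sg
  split_ifs <;> simp

lemma abs_eps (h : Good eps) (y : Fin (M + 1)) (b : V n) : |eps y b| = 1 := by
  rcases h.sq y b with h | h <;> rw [h] <;> simp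

lemma hat_bdd {D : V n → ℝ} {C : ℝ} (h : ∀ b, |D b| ≤ C) (a : V n) :
    |hat D a| ≤ (Fintype.card (V n) : ℝ) * C / qq n := by
  have hq : 0 < qq n := by unfold qq; positivity
  unfold hat
  rw [abs_div, abs_of_pos hq]
  apply div_le_div_of_nonneg_right _ hq.le
  calc |∑ b, D b * ee a b| ≤ ∑ b, |D b * ee a b| := Finset.abs_sum_le_sum_abs _ _
    _ ≤ ∑ _b : V n, C := by
        apply Finset.sum_le_sum
        intro b _
        rw [abs_mul]
        unfold ee
        rw [abs_sg, mul_one]
        exact h b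
    _ = (Fintype.card (V n) : ℝ) * C := by
        rw [Finset.sum_const, Finset.card_univ, nsmul_eq_mul]

lemma term_bdd (hD : P_DDL) (hg : Good eps) (t : ℕ) :
    ∃ C : ℝ, ∀ x z : St n M, |term eps x z t| ≤ C := by
  obtain ⟨C, hC⟩ := (hD n M eps).2.2.2 t
  refine ⟨(Fintype.card (V n) : ℝ) * (C * 2) / qq n, fun x z => ?_⟩
  unfold term
  split_ifs
  · unfold cE
    rw [abs_neg]
    apply hat_bdd
    intro b
    rw [abs_mul]
    apply mul_le_mul (hC _ _ _) _ (abs_nonneg _) ((abs_nonneg _).trans (hC x.2 z.2 b))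
    calc |1 - eps (x.2 t) b * eps (z.2 t) b| ≤ |(1 : ℝ)| + |eps (x.2 t) b * eps (z.2 t) b| :=
          abs_sub _ _
      _ = 2 := by rw [abs_mul, abs_eps hg, abs_eps hg, abs_one]; norm_num
  · unfold cO
    rw [abs_neg]
    apply hat_bdd
    intro b
    rw [abs_mul]
    apply mul_le_mul (hC _ _ _) _ (abs_nonneg _) ((abs_nonneg _).trans (hC x.2 z.2 b))
    calc |eps (x.2 t) b - eps (z.2 t) b| ≤ |eps (x.2 t) b| + |eps (z.2 t) b| := abs_sub _ _
      _ = 2 := by rw [abs_eps hg, abs_eps hg]; norm_num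

lemma term_meas (hT : P_TM) (t : ℕ) (x : St n M) :
    Measurable (fun z => term eps x z t) ∧ Measurable (fun z => term eps z x t) :=
  ⟨((hT n M eps).1 t).comp measurable_prodMk_left, ((hT n M eps).1 t).comp measurable_prodMk_right⟩

lemma Nh_bdd (hD : P_DDL) (hg : Good eps) (t : ℕ) (χ : Bool) (b : V n) :
    ∃ C : ℝ, ∀ y z, |Nh eps y z t χ b| ≤ C := by
  obtain ⟨C, hC⟩ := (hD n M eps).2.2.2 t
  refine ⟨C * 2 * 2, fun y z => ?_⟩
  have h0 : 0 ≤ C := (abs_nonneg _).trans (hC y z b)
  have hcs : |cs χ| = 1 := by unfold cs; split_ifs <;> simp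
  unfold Nh
  rw [abs_mul, abs_mul, abs_neg]
  apply mul_le_mul _ _ (abs_nonneg _) (by positivity)
  · apply mul_le_mul (hC _ _ _) _ (abs_nonneg _) h0
    calc |1 + cs χ * eps (y t) b| ≤ |(1 : ℝ)| + |cs χ * eps (y t) b| := abs_add_le _ _
      _ = 2 := by rw [abs_mul, abs_eps hg, hcs, abs_one]; norm_num
  · calc |1 - cs χ * eps (z t) b| ≤ |(1 : ℝ)| + |cs χ * eps (z t) b| := abs_sub _ _
      _ = 2 := by rw [abs_mul, abs_eps hg, hcs, abs_one]; norm_num

lemma eps_meas (t : ℕ) (b : V n) :
    Measurable (fun z : ℕ → Fin (M + 1) => eps (z t) b) :=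
  (measurable_of_finite (fun c : Fin (M + 1) => eps c b)).comp (measurable_pi_apply t)

lemma Nh_meas (hD : P_DDL) (t : ℕ) (χ : Bool) (b : V n) (y : ℕ → Fin (M + 1)) :
    Measurable (fun z => Nh eps y z t χ b) ∧ Measurable (fun z => Nh eps z y t χ b) := by
  have h := (hD n M eps).2.2.1 t b
  have h1 : Measurable (fun z => DD eps y z t b) := h.comp measurable_prodMk_left
  have h2 : Measurable (fun z => DD eps z y t b) := h.comp measurable_prodMk_right
  unfold Nh
  refine ⟨(h1.neg.mul_const _).mul (measurable_const.sub ((eps_meas t b).const_mul _)),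
    (h2.neg.mul (measurable_const.add ((eps_meas t b).const_mul _))).mul_const _⟩

/-- the integral over the state space of a bounded function whose colour sums are known -/
lemma int_col (hU : P_UNIF) {f : St n M → ℝ} (hf : Measurable f) (hb : ∃ C : ℝ, ∀ x, |f x| ≤ C)
    {g : (ℕ → Fin (M + 1)) → ℝ} (hg : ∀ z, ∑ h : Col n, f (h, z) = g z)
    (hg0 : ∫ z, g z ∂(muSeq M) = 0) : ∫ x, f x ∂(muSt n M) = 0 := by
  rw [(hU n M).2.2 f hf hb, ← integral_finsetSum]
  · have : (fun z => ∑ h : Col n, f (h, z)) = g := funext hg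
    rw [this, hg0, zero_div]
  · intro h _
    apply int_bdd
    · exact hf.comp measurable_prodMk_left
    · obtain ⟨C, hC⟩ := hb
      exact ⟨C, fun z => hC _⟩

end

theorem orth (hU : P_UNIF) (hD : P_DDL) (hT : P_TM) (hN : P_NHZ') (hC : P_COLS) : P_ORTH := by
  intro n M eps hg T x y
  obtain ⟨hN1, hN2, hN3⟩ := hN n M eps hg
  have hb := fun t => term_bdd (n := n) (M := M) (eps := eps) hD hg t
  have hb1 : ∀ t (x : St n M), ∃ C : ℝ, ∀ z, |term eps x z t| ≤ C := fun t x => by
    obtain ⟨C, h⟩ := hb t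
    exact ⟨C, fun z => h x z⟩
  have hb2 : ∀ t (x : St n M), ∃ C : ℝ, ∀ z, |term eps z x t| ≤ C := fun t x => by
    obtain ⟨C, h⟩ := hb t
    exact ⟨C, fun z => h z x⟩
  have hm := fun t (x : St n M) => term_meas (eps := eps) hT t x
  refine ⟨?_, ?_, ?_⟩
  · have h1 : (fun z => NT eps T x z * NT eps T z y) = fun z =>
        ∑ t ∈ Finset.range T, ∑ s ∈ Finset.range T, term eps x z t * term eps z y s := by
      funext z
      unfold NT
      rw [Finset.sum_mul_sum]
    rw [h1, integral_finsetSum]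
    · apply Finset.sum_eq_zero
      intro t _
      rw [integral_finsetSum]
      · apply Finset.sum_eq_zero
        intro s _
        obtain ⟨g, y1⟩ := x
        obtain ⟨g', y2⟩ := y
        apply int_col hU ((hm t _).1.mul (hm s _).2) (mul_bdd (hb1 t _) (hb2 s _))
          (fun z => (hC n M eps y1 z y2 g g' t s).1)
        rw [integral_div, integral_finsetSum]
        · rw [Finset.sum_eq_zero, zero_div]
          intro χ _
          rw [integral_finsetSum]
          · apply Finset.sum_eq_zero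
            intro b _
            rw [integral_const_mul, hN1, mul_zero]
          · intro b _
            apply Integrable.const_mul
            apply int_bdd
            · exact (Nh_meas hD t χ b y1).1.mul (Nh_meas hD s χ b y2).2
            · obtain ⟨C1, hC1⟩ := Nh_bdd (eps := eps) hD hg t χ b
              obtain ⟨C2, hC2⟩ := Nh_bdd (eps := eps) hD hg s χ b
              exact mul_bdd ⟨C1, fun z => hC1 y1 z⟩ ⟨C2, fun z => hC2 z y2⟩
        · intro χ _
          apply integrable_finsetSum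
          intro b _
          apply Integrable.const_mul
          apply int_bdd
          · exact (Nh_meas hD t χ b y1).1.mul (Nh_meas hD s χ b y2).2
          · obtain ⟨C1, hC1⟩ := Nh_bdd (eps := eps) hD hg t χ b
            obtain ⟨C2, hC2⟩ := Nh_bdd (eps := eps) hD hg s χ b
            exact mul_bdd ⟨C1, fun z => hC1 y1 z⟩ ⟨C2, fun z => hC2 z y2⟩
      · intro s _
        exact int_bdd _ ((hm t _).1.mul (hm s _).2) (mul_bdd (hb1 t _) (hb2 s _))
    · intro t _
      apply integrable_finsetSum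
      intro s _
      exact int_bdd _ ((hm t _).1.mul (hm s _).2) (mul_bdd (hb1 t _) (hb2 s _))
  · unfold NT
    rw [integral_finsetSum]
    · apply Finset.sum_eq_zero
      intro t _
      obtain ⟨g, y1⟩ := x
      exact int_col hU (hm t _).1 (hb1 t _) (fun z => (hC n M eps y1 z y1 g g t t).2.1) (hN2 y1 t)
    · intro t _
      exact int_bdd _ (hm t _).1 (hb1 t _)
  · unfold NT
    rw [integral_finsetSum]
    · apply Finset.sum_eq_zero
      intro t _
      obtain ⟨g', y2⟩ := y
      exact int_col hU (hm t _).2 (hb2 t _) (fun z => (hC n M eps y2 z y2 g' g' t t).2.2) (hN3 y2 t)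
    · intro t _
      exact int_bdd _ (hm t _).2 (hb2 t _)

end Pool.Agent.W494.MK
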